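import Mathlib

set_option autoImplicit false

namespace Pool.Agent.H.MP_dfa28f_co

open Finset

section
variable {V : Type} [DecidableEq V] (R : V → V → Prop) [DecidableRel R]

def e2 (U : Finset V) : ℕ := ((U ×ˢ U).filter fun e => R e.1 e.2).card

def Closed (D : Finset V) : Prop :=
  ∀ X : Finset V, Disjoint X D → X.Nonempty → X.card ≤ 5 →
    3 * e2 R (D ∪ X) ≤ 3 * e2 R D + 13 * X.card

lemma closure (hS : ∀ U : Finset V, U.card ≤ 137 → 3 * e2 R U ≤ 13 * U.card)
    (D0 : Finset V) (h0 : D0.card ≤ 2) : ∃ D, D0 ⊆ D ∧ D.card ≤ 137 ∧ Closed R D := by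
  have key : ∀ j : ℕ, j ≤ 27 → (∃ D, D0 ⊆ D ∧ D.card ≤ 137 ∧ Closed R D) ∨
      ∃ D, D0 ⊆ D ∧ D.card ≤ 2 + 5 * j ∧ 13 * D.card + j ≤ 3 * e2 R D + 26 := by
    intro j
    induction j with
    | zero => intro _; exact Or.inr ⟨D0, Subset.refl _, by omega, by omega⟩
    | succ j ih =>
      intro hj
      rcases ih (by omega) with h | ⟨D, h1, h2, h3⟩
      · exact Or.inl h
      · by_cases hc : Closed R D
        · exact Or.inl ⟨D, h1, by omega, hc⟩
        · unfold Closed at hc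
          push Not at hc
          obtain ⟨X, x1, -, x3, x4⟩ := hc
          have : (D ∪ X).card = D.card + X.card := card_union_of_disjoint x1.symm
          exact Or.inr ⟨D ∪ X, h1.trans subset_union_left, by omega, by omega⟩
  rcases key 27 le_rfl with h | ⟨D, -, h2, h3⟩
  · exact h
  · have := hS D (by omega)
    omega

lemma e2_add (D X : Finset V) (Z : Finset (V × V))
    (hZ : ∀ z ∈ Z, z.1 ∈ D ∪ X ∧ z.2 ∈ D ∪ X ∧ R z.1 z.2 ∧ ¬ (z.1 ∈ D ∧ z.2 ∈ D)) :
    e2 R D + Z.card ≤ e2 R (D ∪ X) := by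
  unfold e2
  rw [← card_union_of_disjoint]
  · apply card_le_card
    intro z hz
    rcases mem_union.1 hz with h | h
    · simp only [mem_filter, mem_product] at h ⊢
      exact ⟨⟨mem_union_left _ h.1.1, mem_union_left _ h.1.2⟩, h.2⟩
    · obtain ⟨a, b, c, -⟩ := hZ z h
      simp only [mem_filter, mem_product]
      exact ⟨⟨a, b⟩, c⟩
  · rw [Finset.disjoint_left]
    intro z h1 h2
    simp only [mem_filter, mem_product] at h1
    exact (hZ z h2).2.2.2 h1.1

end

def far (a b : Fin 6) : Prop := a.val + 2 ≤ b.val ∨ b.val + 2 ≤ a.val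

instance : DecidableRel far := fun a b => by unfold far; infer_instance

def tch (I : Finset (Fin 6)) : Finset (Fin 6 × Fin 6) :=
  univ.filter fun z => far z.1 z.2 ∧ (z.1 ∈ I ∨ z.2 ∈ I)

lemma tch4 : ∀ I : Finset (Fin 6), I.Nonempty → I.card ≤ 4 → 13 * I.card < 3 * (tch I).card := by
  decide +kernel

lemma tch5 : ∀ I : Finset (Fin 6), I.Nonempty → I.card ≤ 5 →
    13 * I.card < 3 * ((tch I).card + 2) := by
  decide +kernel

lemma nocopy {V : Type} [DecidableEq V] (R : V → V → Prop) [DecidableRel R] (D : Finset V)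
    (hD : Closed R D) (c1 c2 w : V) (h12 : c1 ≠ c2) (h1 : c1 ∈ D) (h2 : c2 ∈ D) (hw : w ∉ D)
    (r1 : R w c2) (r2 : R c2 w) (φ : Fin 6 → V) (hφ : Function.Injective φ)
    (hR : ∀ a b, far a b → R (φ a) (φ b)) (a b : Fin 6) (ha : φ a = w) (hb : φ b = c1) :
    False := by
  set I : Finset (Fin 6) := univ.filter fun x => φ x ∉ D with hI
  have mI : ∀ x, x ∈ I ↔ φ x ∉ D := fun x => by simp [hI]
  have aI : a ∈ I := (mI a).2 (ha ▸ hw)
  have bI : b ∉ I := fun h => (mI b).1 h (hb ▸ h1)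
  set X := I.image φ with hX
  have cX : X.card = I.card := card_image_of_injective _ hφ
  have dX : Disjoint X D := by
    rw [Finset.disjoint_left]
    intro x hx
    obtain ⟨y, hy, rfl⟩ := mem_image.1 hx
    exact (mI y).1 hy
  have I5 : I.card ≤ 5 := by
    have : I ⊆ univ.erase b := fun x hx => mem_erase.2 ⟨fun e => bI (e ▸ hx), mem_univ _⟩
    have := card_le_card this
    rw [card_erase_of_mem (mem_univ _)] at this
    simpa using this
  have hc := hD X dX ⟨w, mem_image.2 ⟨a, aI, ha⟩⟩ (by omega)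
  have inU : ∀ x, φ x ∈ D ∪ X := by
    intro x
    by_cases h : φ x ∈ D
    · exact mem_union_left _ h
    · exact mem_union_right _ (mem_image_of_mem _ ((mI x).2 h))
  set Z := (tch I).image (Prod.map φ φ) with hZ
  have cZ : Z.card = (tch I).card := card_image_of_injective _ (hφ.prodMap hφ)
  have pZ : ∀ z ∈ Z, z.1 ∈ D ∪ X ∧ z.2 ∈ D ∪ X ∧ R z.1 z.2 ∧ ¬ (z.1 ∈ D ∧ z.2 ∈ D) := by
    intro z hz
    obtain ⟨⟨x, y⟩, hy, rfl⟩ := mem_image.1 hz
    simp only [tch, mem_filter, mem_univ, true_and] at hy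
    refine ⟨inU x, inU y, hR x y hy.1, fun h => ?_⟩
    rcases hy.2 with h' | h'
    · exact (mI x).1 h' h.1
    · exact (mI y).1 h' h.2
  by_cases hr : ∃ b', φ b' = c2
  · obtain ⟨b', hb'⟩ := hr
    have bI' : b' ∉ I := fun h => (mI b').1 h (hb' ▸ h2)
    have bb : b' ≠ b := fun e => h12 (by rw [← hb, ← hb', e])
    have I4 : I.card ≤ 4 := by
      have : I ⊆ (univ.erase b).erase b' := fun x hx =>
        mem_erase.2 ⟨fun e => bI' (e ▸ hx), mem_erase.2 ⟨fun e => bI (e ▸ hx), mem_univ _⟩⟩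
      have := card_le_card this
      rw [card_erase_of_mem (mem_erase.2 ⟨bb, mem_univ _⟩), card_erase_of_mem (mem_univ _)] at this
      simpa using this
    have k1 := e2_add R D X Z pZ
    have k2 := tch4 I ⟨a, aI⟩ I4
    omega
  · have wc : w ≠ c2 := fun e => hw (e ▸ h2)
    have n1 : (c2, w) ∉ Z := by
      intro h
      obtain ⟨⟨x, y⟩, -, h⟩ := mem_image.1 h
      exact hr ⟨x, congrArg Prod.fst h⟩
    have n2 : (w, c2) ∉ insert (c2, w) Z := by
      intro h
      rcases mem_insert.1 h with h | h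
      · exact wc (congrArg Prod.fst h)
      · obtain ⟨⟨x, y⟩, -, h⟩ := mem_image.1 h
        exact hr ⟨y, congrArg Prod.snd h⟩
    have wU : w ∈ D ∪ X := ha ▸ inU a
    have k1 := e2_add R D X (insert (w, c2) (insert (c2, w) Z)) (by
      intro z hz
      rcases mem_insert.1 hz with rfl | hz
      · exact ⟨wU, mem_union_left _ h2, r1, fun h => hw h.1⟩
      rcases mem_insert.1 hz with rfl | hz
      · exact ⟨mem_union_left _ h2, wU, r2, fun h => hw h.2⟩
      · exact pZ z hz)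
    rw [card_insert_of_notMem n2, card_insert_of_notMem n1] at k1
    have k2 := tch5 I ⟨a, aI⟩ I5
    omega

lemma gap {L k : ℕ} (e : Fin L ↪o Fin k) (a b : Fin L) (h : a.val + 2 ≤ b.val) :
    (e a).val + 2 ≤ (e b).val := by
  have h1 : e a < e ⟨a.val + 1, by omega⟩ := e.strictMono (by rw [Fin.lt_def]; simp)
  have h2 : e ⟨a.val + 1, by omega⟩ < e b := e.strictMono (by rw [Fin.lt_def]; simp; omega)
  rw [Fin.lt_def] at h1 h2
  omega

end Pool.Agent.H.MP_dfa28f_co
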