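import Pool.Agent.H.MP_dfa28f_co.Rand
import Pool.Agent.H.MP_dfa28f_co.Det

set_option autoImplicit false

namespace Pool.Agent.H.MP_dfa28f_co

open Finset

section
variable {t s n : ℕ} (ω : ((Fin t ⊕ Fin s) × Fin n) × ((Fin t ⊕ Fin s) × Fin n) → Bool)

def EE (u v : (Fin t ⊕ Fin s) × Fin n) : Prop :=
  u ≠ v ∧ ω (u, v) = true ∧ ω (v, u) = true ∧ ¬ (u.1 = v.1 ∧ u.1.isRight = true)

def RR (u v : (Fin t ⊕ Fin s) × Fin n) : Prop := u.1 = v.1 ∧ EE ω u v

def Del (u v : (Fin t ⊕ Fin s) × Fin n) : Prop :=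
  ∃ φ : Fin 6 → (Fin t ⊕ Fin s) × Fin n, Function.Injective φ ∧
    (∀ a b, far a b → RR ω (φ a) (φ b)) ∧ ∃ a b, far a b ∧ φ a = u ∧ φ b = v

def HH (u v : (Fin t ⊕ Fin s) × Fin n) : Prop := EE ω u v ∧ ¬ Del ω u v

lemma EE_symm {u v : (Fin t ⊕ Fin s) × Fin n} (h : EE ω u v) : EE ω v u :=
  ⟨h.1.symm, h.2.2.1, h.2.1, fun e => h.2.2.2 ⟨e.1.symm, e.1 ▸ e.2⟩⟩

lemma Del_symm {u v : (Fin t ⊕ Fin s) × Fin n} (h : Del ω u v) : Del ω v u := by
  obtain ⟨φ, h1, h2, a, b, h3, h4, h5⟩ := h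
  exact ⟨φ, h1, h2, b, a, Or.symm h3, h5, h4⟩

lemma Del_part {u v : (Fin t ⊕ Fin s) × Fin n} (h : Del ω u v) : u.1 = v.1 := by
  obtain ⟨φ, h1, h2, a, b, h3, rfl, rfl⟩ := h
  exact (h2 a b h3).1

def GG : SimpleGraph ((Fin t ⊕ Fin s) × Fin n) where
  Adj u v := u ≠ v ∧ ¬ HH ω u v
  symm := ⟨fun _ _ h => ⟨h.1.symm, fun e => h.2 ⟨EE_symm ω e.1, fun d => e.2 (Del_symm ω d)⟩⟩⟩
  loopless := ⟨fun _ h => h.1 rfl⟩

lemma GG_of_false {w r : (Fin t ⊕ Fin s) × Fin n} (h : w ≠ r) (h2 : ω (w, r) = false) :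
    (GG ω).Adj w r :=
  ⟨h, fun e => by have := e.1.2.1; rw [h2] at this; exact absurd this (by simp)⟩

lemma free (k : ℕ) (hk : 5 * t + 2 * s < k) : IsEmpty (SimpleGraph.pathGraph k ↪g GG ω) := by
  classical
  refine ⟨fun f => ?_⟩
  have h1 : ∑ i : Fin t ⊕ Fin s, (univ.filter fun a : Fin k => (f a).1 = i).card = k := by
    rw [← Finset.card_eq_sum_card_fiberwise (fun a _ => mem_univ _)]
    simp
  have h2 : ∑ i : Fin t ⊕ Fin s, (Sum.elim (fun _ => 5) (fun _ => 2) i : ℕ) = 5 * t + 2 * s := by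
    simp [Fintype.sum_sum_type, mul_comm]
  obtain ⟨i, -, hi⟩ := Finset.exists_lt_of_sum_lt (s := univ)
    (f := fun i : Fin t ⊕ Fin s => (Sum.elim (fun _ => 5) (fun _ => 2) i : ℕ))
    (g := fun i => (univ.filter fun a : Fin k => (f a).1 = i).card) (by rw [h1, h2]; exact hk)
  have key : ∀ x y : Fin k, x.val + 2 ≤ y.val → HH ω (f x) (f y) := by
    intro x y h
    by_contra hc
    have : (GG ω).Adj (f x) (f y) := ⟨fun e => by
      have := f.injective e
      rw [this] at h; omega, hc⟩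
    rw [f.map_adj_iff, SimpleGraph.pathGraph_adj] at this
    omega
  rcases i with i | i
  · simp only [Sum.elim_inl] at hi
    obtain ⟨S, hS, cS⟩ := Finset.exists_subset_card_eq (n := 6) (Nat.succ_le_of_lt hi)
    let e := S.orderEmbOfFin cS
    have pe : ∀ a, (f (e a)).1 = Sum.inl i := fun a =>
      (mem_filter.1 (hS (S.orderEmbOfFin_mem cS a))).2
    refine (key (e 0) (e 2) (gap e 0 2 (by decide))).2 ⟨fun a => f (e a),
      f.injective.comp e.injective, ?_, 0, 2, by decide, rfl, rfl⟩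
    intro a b hab
    refine ⟨by rw [pe, pe], ?_⟩
    rcases hab with h | h
    · exact (key _ _ (gap e a b h)).1
    · exact EE_symm ω (key _ _ (gap e b a h)).1
  · simp only [Sum.elim_inr] at hi
    obtain ⟨S, hS, cS⟩ := Finset.exists_subset_card_eq (n := 3) (Nat.succ_le_of_lt hi)
    let e := S.orderEmbOfFin cS
    have pe : ∀ a, (f (e a)).1 = Sum.inr i := fun a =>
      (mem_filter.1 (hS (S.orderEmbOfFin_mem cS a))).2
    exact (key (e 0) (e 2) (gap e 0 2 (by decide))).1.2.2.2 ⟨by rw [pe, pe], by rw [pe]; rfl⟩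

end

theorem exists_graph (t s k : ℕ) (h : 0 < t + s) (hk : 5 * t + 2 * s < k) :
    ∃ (V : Type) (_ : Fintype V) (G : SimpleGraph V), G.Connected ∧
      IsEmpty (SimpleGraph.pathGraph k ↪g G) ∧
      (∀ C : Finset V, C.card < 3 * t + s → ∃ r, r ∉ C) ∧
      ∀ (C : Finset V) (r : V), C.card < 3 * t + s → r ∉ C →
        ∃ w, G.Adj r w ∧ ∀ c ∈ C, c ≠ w ∧ ¬ G.Adj c w := by
  classical
  haveI : Nonempty (Fin t ⊕ Fin s) := by
    rcases Nat.eq_zero_or_pos t with h0 | h0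
    · exact ⟨Sum.inr ⟨0, by omega⟩⟩
    · exact ⟨Sum.inl ⟨0, h0⟩⟩
  obtain ⟨n, hn, ω, hS, hT⟩ := rand (Fin t ⊕ Fin s) (3 * t + s + 2) 137 (3 * t + s + 3)
  obtain ⟨i0⟩ := (inferInstance : Nonempty (Fin t ⊕ Fin s))
  refine ⟨(Fin t ⊕ Fin s) × Fin n, inferInstance, GG ω, ?_, free ω k hk, ?_, ?_⟩
  · haveI : Nonempty ((Fin t ⊕ Fin s) × Fin n) := ⟨(i0, ⟨0, by omega⟩)⟩
    refine ⟨fun u v => ?_⟩
    obtain ⟨w, -, -, -, w1, w2, -, w3, w4⟩ := hT i0 ∅ u v ∅ (by simp) (by simp) (by simp)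
      (by simp) (by simp)
    exact (GG_of_false ω w1 w3).symm.reachable.trans (GG_of_false ω w2 w4).reachable
  · intro C hC
    by_contra hc
    push Not at hc
    have h1 : (univ : Finset ((Fin t ⊕ Fin s) × Fin n)).card ≤ C.card :=
      card_le_card fun x _ => hc x
    rw [card_univ, Fintype.card_prod, Fintype.card_fin] at h1
    have h2 : 1 ≤ Fintype.card (Fin t ⊕ Fin s) := Fintype.card_pos
    have h3 := Nat.mul_le_mul_right n h2
    omega
  · intro C r hC hr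
    have h1 : ∑ i : Fin t ⊕ Fin s, (C.filter fun c => c.1 = i).card = C.card := by
      rw [← Finset.card_eq_sum_card_fiberwise (fun a _ => mem_univ _)]
    have h2 : ∑ i : Fin t ⊕ Fin s, (Sum.elim (fun _ => 3) (fun _ => 1) i : ℕ) = 3 * t + s := by
      simp [Fintype.sum_sum_type, mul_comm]
    obtain ⟨i, -, hi⟩ := Finset.exists_lt_of_sum_lt (s := univ)
      (g := fun i : Fin t ⊕ Fin s => (Sum.elim (fun _ => 3) (fun _ => 1) i : ℕ))
      (f := fun i => (C.filter fun c : (Fin t ⊕ Fin s) × Fin n => c.1 = i).card) (by rw [h1, h2]; exact hC)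
    suffices hh : ∃ w, w ≠ r ∧ ω (w, r) = false ∧ ∀ c ∈ C, HH ω w c by
      obtain ⟨w, w1, w2, w3⟩ := hh
      exact ⟨w, (GG_of_false ω w1 w2).symm, fun c hc =>
        ⟨(w3 c hc).1.1.symm, fun e => e.symm.2 (w3 c hc)⟩⟩
    rcases i with i | i
    · simp only [Sum.elim_inl] at hi
      have b1 : (univ.filter fun w : (Fin t ⊕ Fin s) × Fin n => w.1 = Sum.inl i).card = n := by
        have : (univ.filter fun w : (Fin t ⊕ Fin s) × Fin n => w.1 = Sum.inl i) =
            ({Sum.inl i} : Finset (Fin t ⊕ Fin s)) ×ˢ univ := by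
          ext w
          simp only [mem_filter, mem_univ, true_and, mem_product, mem_singleton, and_true]
        rw [this, card_product]; simp
      obtain ⟨D0, d1, d2, d3⟩ := Finset.exists_subsuperset_card_eq
        (s := C.filter fun c => c.1 = Sum.inl i)
        (t := (univ.filter fun w : (Fin t ⊕ Fin s) × Fin n => w.1 = Sum.inl i).erase r) (n := 2)
        (by
          intro c hc
          obtain ⟨c1, c2⟩ := mem_filter.1 hc
          exact mem_erase.2 ⟨fun e => hr (e ▸ c1), mem_filter.2 ⟨mem_univ _, c2⟩⟩)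
        (by omega)
        (by
          have := pred_card_le_card_erase (a := r)
            (s := univ.filter fun w : (Fin t ⊕ Fin s) × Fin n => w.1 = Sum.inl i)
          omega)
      have dp : ∀ c ∈ D0, c.1 = Sum.inl i := fun c hc => (mem_filter.1 (mem_erase.1 (d2 hc)).2).2
      have dr : r ∉ D0 := fun hc => (mem_erase.1 (d2 hc)).1 rfl
      obtain ⟨D, e1, e2', e3⟩ := closure (RR ω) (fun U hU => le_trans (by
        apply Nat.mul_le_mul_left
        apply card_le_card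
        intro z hz
        obtain ⟨z1, z2⟩ := mem_filter.1 hz
        exact mem_filter.2 ⟨z1, z2.1, z2.2.2.1⟩) (hS U hU)) D0 d3.le
      have cu := card_union_le C D0
      have rC : r ∉ C ∪ D0 := fun hc => (mem_union.1 hc).elim hr dr
      obtain ⟨w, w1, w2, w3, w4, -, w5, w6, -⟩ := hT (Sum.inl i) (C ∪ D0) r r D (by omega)
        (by
          refine le_trans (card_le_card ?_) d3.le
          intro c hc
          obtain ⟨c1, c2⟩ := mem_filter.1 hc
          rcases mem_union.1 c1 with c1 | c1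
          · exact d1 (mem_filter.2 ⟨c1, c2⟩)
          · exact c1) rC rC e2'
      have wE : ∀ c ∈ C ∪ D0, EE ω w c := fun c hc =>
        ⟨fun e => w3 (e ▸ hc), (w5 c hc).1, (w5 c hc).2, fun e => by
          have := e.2
          rw [w1] at this
          exact absurd this (by simp)⟩
      refine ⟨w, w4, w6, fun c hc => ⟨wE c (mem_union_left _ hc), fun hd => ?_⟩⟩
      have cD : c ∈ D0 := d1 (mem_filter.2 ⟨hc, (Del_part ω hd).symm.trans w1⟩)
      obtain ⟨c2, k1, k2⟩ := Finset.exists_mem_ne (s := D0) (by omega) c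
      obtain ⟨φ, p1, p2, a, b, -, p4, p5⟩ := hd
      have q1 : RR ω w c2 := ⟨w1.trans (dp c2 k1).symm, wE c2 (mem_union_right _ k1)⟩
      exact nocopy (RR ω) D e3 c c2 w k2.symm (e1 cD) (e1 k1) w2 q1
        ⟨q1.1.symm, EE_symm ω q1.2⟩ φ p1 p2 a b p4 p5
    · simp only [Sum.elim_inr] at hi
      obtain ⟨w, w1, -, w3, w4, -, w5, w6, -⟩ := hT (Sum.inr i) C r r ∅ (by omega)
        (by omega) hr hr (by simp)
      have np : ∀ c ∈ C, w.1 ≠ c.1 := by
        intro c hc e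
        have : c ∈ C.filter fun c => c.1 = Sum.inr i := mem_filter.2 ⟨hc, e.symm.trans w1⟩
        have := card_pos.2 ⟨c, this⟩
        omega
      exact ⟨w, w4, w6, fun c hc => ⟨⟨fun e => w3 (e ▸ hc), (w5 c hc).1, (w5 c hc).2,
        fun e => np c hc e.1⟩, fun hd => np c hc (Del_part ω hd)⟩⟩

end Pool.Agent.H.MP_dfa28f_co
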