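import Mathlib

set_option autoImplicit false

namespace Pool.Agent.H.MP_dfa28f_co

open Finset

variable {ι : Type} [Fintype ι] [DecidableEq ι]

noncomputable def wt (p : ι → ℝ) (ω : ι → Bool) : ℝ := ∏ e, if ω e then p e else 1 - p e

noncomputable def Ex (p : ι → ℝ) (f : (ι → Bool) → ℝ) : ℝ := ∑ ω, wt p ω * f ω

lemma wt_nonneg {p : ι → ℝ} (h0 : ∀ e, 0 ≤ p e) (h1 : ∀ e, p e ≤ 1) (ω : ι → Bool) :
    0 ≤ wt p ω := by
  apply Finset.prod_nonneg
  intro e _
  split_ifs
  · exact h0 e
  · linarith [h1 e]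

open Classical in
noncomputable def cyl (S : Finset ι) (σ : ι → Bool) (ω : ι → Bool) : ℝ :=
  if ∀ e ∈ S, ω e = σ e then 1 else 0

lemma Ex_cyl (p : ι → ℝ) (S : Finset ι) (σ : ι → Bool) :
    Ex p (cyl S σ) = ∏ e ∈ S, if σ e then p e else 1 - p e := by
  have h1 : ∀ ω : ι → Bool, wt p ω * cyl S σ ω =
      ∏ e, ((if ω e then p e else 1 - p e) * (if e ∈ S → ω e = σ e then 1 else 0)) := by
    intro ω
    rw [Finset.prod_mul_distrib]
    unfold wt cyl
    congr 1
    split_ifs with h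
    · symm
      apply Finset.prod_eq_one
      intro e _
      rw [if_pos (h e)]
    · push Not at h
      obtain ⟨e, he, hne⟩ := h
      symm
      apply Finset.prod_eq_zero (Finset.mem_univ e)
      rw [if_neg (fun h => hne (h he))]
  unfold Ex
  simp only [h1]
  rw [← Fintype.piFinset_univ, ← Finset.prod_univ_sum (fun _ => (univ : Finset Bool))
    (fun e b => (if b then p e else 1 - p e) * (if e ∈ S → b = σ e then (1 : ℝ) else 0))]
  rw [← Finset.prod_subset (Finset.subset_univ S)]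
  · apply Finset.prod_congr rfl
    intro e he
    cases h : σ e <;> simp [he]
  · intro e _ he
    simp [he]

lemma sum_wt (p : ι → ℝ) : ∑ ω : ι → Bool, wt p ω = 1 := by
  have := Ex_cyl p ∅ (fun _ => true)
  simpa [Ex, cyl] using this

lemma Ex_mul (p : ι → ℝ) (A : Finset ι) (f g : (ι → Bool) → ℝ)
    (hf : ∀ ω ω', (∀ e ∈ A, ω e = ω' e) → f ω = f ω')
    (hg : ∀ ω ω', (∀ e ∉ A, ω e = ω' e) → g ω = g ω') :
    Ex p (fun ω => f ω * g ω) = Ex p f * Ex p g := by
  let mix : (ι → Bool) → (ι → Bool) → (ι → Bool) := fun ω ω' e => if e ∈ A then ω e else ω' e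
  let sw : (ι → Bool) × (ι → Bool) → (ι → Bool) × (ι → Bool) :=
    fun z => (mix z.1 z.2, mix z.2 z.1)
  have hsw : Function.Involutive sw := by
    rintro ⟨a, b⟩
    ext e <;> simp only [sw, mix] <;> split_ifs <;> rfl
  have hw : ∀ a b, wt p (mix a b) * wt p (mix b a) = wt p a * wt p b := by
    intro a b
    unfold wt
    rw [← Finset.prod_mul_distrib, ← Finset.prod_mul_distrib]
    apply Finset.prod_congr rfl
    intro e _
    simp only [mix]
    by_cases he : e ∈ A
    · simp only [he, if_true]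
    · simp only [he, if_false]; ring
  have e1 : Ex p f * Ex p g =
      ∑ z : (ι → Bool) × (ι → Bool), wt p z.1 * wt p z.2 * (f z.1 * g z.2) := by
    unfold Ex
    rw [Finset.sum_mul_sum, ← Finset.sum_product', Finset.univ_product_univ]
    apply Finset.sum_congr rfl
    intro z _
    ring
  have e2 : Ex p (fun ω => f ω * g ω) =
      ∑ z : (ι → Bool) × (ι → Bool), wt p z.1 * wt p z.2 * (f z.1 * g z.1) := by
    have : Ex p (fun ω => f ω * g ω) = Ex p (fun ω => f ω * g ω) * ∑ ω : ι → Bool, wt p ω := by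
      rw [sum_wt, mul_one]
    rw [this]
    unfold Ex
    rw [Finset.sum_mul_sum, ← Finset.sum_product', Finset.univ_product_univ]
    apply Finset.sum_congr rfl
    intro z _
    ring
  rw [e1, e2, ← hsw.bijective.sum_comp]
  apply Finset.sum_congr rfl
  rintro ⟨a, b⟩ _
  simp only [sw]
  rw [hw, hf (mix a b) a (fun e he => by simp [mix, he]),
    hg (mix a b) b (fun e he => by simp [mix, he])]

lemma Ex_none {κ : Type} [DecidableEq κ] (p : ι → ℝ) (S : κ → Finset ι) (σ : κ → ι → Bool)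
    (W : Finset κ) (hd : ∀ a ∈ W, ∀ b ∈ W, a ≠ b → Disjoint (S a) (S b)) :
    Ex p (fun ω => ∏ w ∈ W, (1 - cyl (S w) (σ w) ω)) =
      ∏ w ∈ W, (1 - ∏ e ∈ S w, if σ w e then p e else 1 - p e) := by
  induction W using Finset.induction_on with
  | empty => simp [Ex, sum_wt]
  | insert a W ha ih =>
    simp only [Finset.prod_insert ha]
    rw [Ex_mul p (S a), ih (fun b hb c hc => hd b (by simp [hb]) c (by simp [hc]))]
    · congr 1
      rw [← Ex_cyl]
      unfold Ex
      simp only [mul_sub, mul_one, Finset.sum_sub_distrib, sum_wt]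
    · intro ω ω' h
      unfold cyl
      have : (∀ e ∈ S a, ω e = σ a e) ↔ (∀ e ∈ S a, ω' e = σ a e) :=
        forall₂_congr fun e he => by rw [h e he]
      simp only [this]
    · intro ω ω' h
      apply Finset.prod_congr rfl
      intro w hw
      unfold cyl
      have hdis := hd a (by simp) w (by simp [hw]) (by rintro rfl; exact ha hw)
      have : (∀ e ∈ S w, ω e = σ w e) ↔ (∀ e ∈ S w, ω' e = σ w e) :=
        forall₂_congr fun e he => by rw [h e (Finset.disjoint_right.1 hdis he)]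
      simp only [this]

/-- first moment principle -/
lemma exists_good {p : ι → ℝ} (h0 : ∀ e, 0 ≤ p e) (h1 : ∀ e, p e ≤ 1) (f : (ι → Bool) → ℝ)
    (h : Ex p f < 1) : ∃ ω, f ω < 1 := by
  by_contra hc
  push Not at hc
  have : ∑ ω : ι → Bool, wt p ω ≤ Ex p f := by
    apply Finset.sum_le_sum
    intro ω _
    have := mul_le_mul_of_nonneg_left (hc ω) (wt_nonneg h0 h1 ω)
    linarith
  rw [sum_wt] at this
  linarith

lemma Ex_add (p : ι → ℝ) (f g : (ι → Bool) → ℝ) :
    Ex p (fun ω => f ω + g ω) = Ex p f + Ex p g := by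
  unfold Ex
  simp only [mul_add, Finset.sum_add_distrib]

lemma Ex_sum {κ : Type} (p : ι → ℝ) (A : Finset κ) (f : κ → (ι → Bool) → ℝ) :
    Ex p (fun ω => ∑ a ∈ A, f a ω) = ∑ a ∈ A, Ex p (f a) := by
  unfold Ex
  simp only [Finset.mul_sum]
  rw [Finset.sum_comm]

lemma cyl_nonneg (S : Finset ι) (σ ω : ι → Bool) : 0 ≤ cyl S σ ω := by
  unfold cyl; split_ifs <;> norm_num

lemma cyl_le (S : Finset ι) (σ ω : ι → Bool) : cyl S σ ω ≤ 1 := by
  unfold cyl; split_ifs <;> norm_num

end Pool.Agent.H.MP_dfa28f_co
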