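import Pool.Agent.H.MP_dfa28f_co.Prob

set_option autoImplicit false

namespace Pool.Agent.H.MP_dfa28f_co

open Finset Filter Topology

def small (V : Type) [Fintype V] (K : ℕ) : Finset (Finset V) :=
  univ.filter fun U => U.card ≤ K

lemma sum_small {V : Type} [Fintype V] [DecidableEq V] (K : ℕ) (g : ℕ → ℝ) (hg : ∀ u, 0 ≤ g u) :
    ∑ U ∈ small V K, g U.card ≤ ∑ u ∈ range (K + 1), (Fintype.card V : ℝ) ^ u * g u := by
  rw [← Finset.sum_fiberwise_of_maps_to (s := small V K) (t := range (K + 1))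
    (g := fun U => U.card) (by
      intro U hU
      simp only [small, mem_filter] at hU
      simp only [mem_range]; omega)]
  apply Finset.sum_le_sum
  intro u _
  rw [Finset.sum_congr rfl (g := fun _ => g u) (by
    intro U hU
    rw [(mem_filter.1 hU).2]), Finset.sum_const, nsmul_eq_mul]
  apply mul_le_mul_of_nonneg_right _ (hg u)
  have h1 : ((small V K).filter fun U => U.card = u).card ≤ (powersetCard u (univ : Finset V)).card := by
    apply Finset.card_le_card
    intro U hU
    exact mem_powersetCard.2 ⟨subset_univ _, (mem_filter.1 hU).2⟩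
  rw [card_powersetCard, card_univ] at h1
  exact_mod_cast h1.trans (Nat.choose_le_pow _ _)

lemma card_small {V : Type} [Fintype V] [DecidableEq V] (K : ℕ) (h : 1 ≤ Fintype.card V) :
    ((small V K).card : ℝ) ≤ (K + 1) * (Fintype.card V : ℝ) ^ K := by
  have := sum_small (V := V) K (fun _ => 1) (fun _ => zero_le_one)
  simp only [sum_const, nsmul_eq_mul, mul_one] at this
  refine this.trans ?_
  have h2 : ∑ u ∈ range (K + 1), (Fintype.card V : ℝ) ^ u ≤
      ∑ u ∈ range (K + 1), (Fintype.card V : ℝ) ^ K := by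
    apply Finset.sum_le_sum
    intro u hu
    exact pow_le_pow_right₀ (by exact_mod_cast h) (by simp only [mem_range] at hu; omega)
  simpa using h2

section
variable {P : Type} [Fintype P] [DecidableEq P] {n : ℕ}

noncomputable def pp (q : ℝ) (e : (P × Fin n) × (P × Fin n)) : ℝ :=
  if e.1.1 = e.2.1 then q else 1 / 2

def SS (C : Finset (P × Fin n)) (r1 r2 w : P × Fin n) : Finset ((P × Fin n) × (P × Fin n)) :=
  (insert r1 (insert r2 C)).image (fun c => (w, c)) ∪ C.image (fun c => (c, w))

def sg (r1 r2 : P × Fin n) (e : (P × Fin n) × (P × Fin n)) : Bool :=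
  decide (e.2 ≠ r1 ∧ e.2 ≠ r2)

lemma SS_disj (C : Finset (P × Fin n)) (r1 r2 w w' : P × Fin n)
    (hw : w ∉ insert r1 (insert r2 C)) (hw' : w' ∉ insert r1 (insert r2 C)) (h : w ≠ w') :
    Disjoint (SS C r1 r2 w) (SS C r1 r2 w') := by
  have hs : C ⊆ insert r1 (insert r2 C) := (subset_insert _ _).trans (subset_insert _ _)
  rw [Finset.disjoint_left]
  intro e h1 h2
  simp only [SS, mem_union, mem_image] at h1 h2
  rcases h1 with ⟨c, hc, rfl⟩ | ⟨c, hc, rfl⟩ <;> rcases h2 with ⟨d, hd, h2⟩ | ⟨d, hd, h2⟩ <;>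
    simp only [Prod.mk.injEq] at h2
  · exact h h2.1.symm
  · exact hw (h2.1 ▸ hs hd)
  · exact hw (h2.2 ▸ hd)
  · exact h h2.2.symm

lemma SS_prob (q : ℝ) (hq0 : 0 ≤ q) (hq : q ≤ 1 / 2) (m : ℕ) (C : Finset (P × Fin n))
    (hC : C.card ≤ m) (r1 r2 w : P × Fin n) (h2 : (C.filter fun c => c.1 = w.1).card ≤ 2) :
    q ^ 4 * (1 / 2) ^ (2 * m + 2) ≤
      ∏ e ∈ SS C r1 r2 w, if sg r1 r2 e then pp q e else 1 - pp q e := by
  set C' := C.filter fun c => c.1 = w.1 with hC'
  set Bd := C'.image (fun c => (w, c)) ∪ C'.image (fun c => (c, w)) with hBd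
  have c1 : Bd.card ≤ 4 := by
    have a := card_union_le (C'.image (fun c => (w, c))) (C'.image (fun c => (c, w)))
    have b := card_image_le (s := C') (f := fun c => (w, c))
    have c := card_image_le (s := C') (f := fun c => (c, w))
    have d : C'.card ≤ 2 := h2
    rw [hBd]
    omega
  have c2 : (SS C r1 r2 w).card ≤ 2 * m + 2 := by
    have a := card_union_le ((insert r1 (insert r2 C)).image (fun c => (w, c)))
      (C.image (fun c => (c, w)))
    have b := card_image_le (s := insert r1 (insert r2 C)) (f := fun c => (w, c))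
    have c := card_image_le (s := C) (f := fun c => (c, w))
    have d := card_insert_le r1 (insert r2 C)
    have e := card_insert_le r2 C
    unfold SS
    omega
  have h3 : ∏ e ∈ SS C r1 r2 w, ((if e ∈ Bd then q else 1) * (1 / 2 : ℝ)) ≤
      ∏ e ∈ SS C r1 r2 w, if sg r1 r2 e then pp q e else 1 - pp q e := by
    apply Finset.prod_le_prod
    · intro e _; split_ifs <;> positivity
    · intro e he
      by_cases hb : e ∈ Bd
      · rw [if_pos hb]
        unfold pp
        split_ifs <;> linarith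
      · rw [if_neg hb]
        by_cases hs : sg r1 r2 e
        · rw [if_pos hs]
          unfold pp
          rw [if_neg]
          · norm_num
          · intro hp
            apply hb
            simp only [SS, mem_union, mem_image, mem_insert] at he
            simp only [sg, decide_eq_true_eq] at hs
            simp only [hBd, hC', mem_union, mem_image, mem_filter]
            rcases he with ⟨c, hc, rfl⟩ | ⟨c, hc, rfl⟩
            · left
              rcases hc with rfl | rfl | hc
              · exact absurd rfl hs.1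
              · exact absurd rfl hs.2
              · exact ⟨c, ⟨hc, hp.symm⟩, rfl⟩
            · right
              exact ⟨c, ⟨hc, hp⟩, rfl⟩
        · rw [if_neg hs]
          unfold pp
          split_ifs <;> linarith
  refine le_trans ?_ h3
  rw [Finset.prod_mul_distrib, Finset.prod_const, Finset.prod_ite_mem, Finset.prod_const]
  apply mul_le_mul
  · apply pow_le_pow_of_le_one hq0 (by linarith)
    exact (card_le_card inter_subset_right).trans c1
  · exact pow_le_pow_of_le_one (by norm_num) (by norm_num) c2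
  · positivity
  · positivity

end

lemma lim2 (c T K : ℝ) (hT : 0 < T) (d : ℕ) :
    Tendsto (fun x : ℕ => c * (x : ℝ) ^ d * Real.exp (-(((x : ℝ) - K) / T))) atTop (𝓝 0) := by
  have h1 : Tendsto (fun x : ℕ => (x : ℝ) / T) atTop atTop :=
    tendsto_natCast_atTop_atTop.atTop_div_const hT
  have h2 := (Real.tendsto_pow_mul_exp_neg_atTop_nhds_zero d).comp h1
  have h3 := h2.const_mul (c * T ^ d * Real.exp (K / T))
  rw [mul_zero] at h3
  refine h3.congr fun x => ?_
  simp only [Function.comp]
  have : Real.exp (-(((x : ℝ) - K) / T)) = Real.exp (K / T) * Real.exp (-((x : ℝ) / T)) := by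
    rw [← Real.exp_add]; congr 1; ring
  rw [this, div_pow]
  field_simp

theorem rand (P : Type) [Fintype P] [DecidableEq P] [Nonempty P] (m B n0 : ℕ) :
    ∃ n : ℕ, n0 ≤ n ∧ ∃ ω : (P × Fin n) × (P × Fin n) → Bool,
      (∀ U : Finset (P × Fin n), U.card ≤ B →
        3 * ((U ×ˢ U).filter fun e => e.1.1 = e.2.1 ∧ ω e = true).card ≤ 13 * U.card) ∧
      (∀ (i : P) (C : Finset (P × Fin n)) (r1 r2 : P × Fin n) (D : Finset (P × Fin n)),
        C.card ≤ m → (C.filter fun c => c.1 = i).card ≤ 2 → r1 ∉ C → r2 ∉ C → D.card ≤ B →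
        ∃ w : P × Fin n, w.1 = i ∧ w ∉ D ∧ w ∉ C ∧ w ≠ r1 ∧ w ≠ r2 ∧
          (∀ c ∈ C, ω (w, c) = true ∧ ω (c, w) = true) ∧ ω (w, r1) = false ∧
          ω (w, r2) = false) := by
  classical
  set a : ℝ := ((Fintype.card P : ℕ) : ℝ) with ha
  have ha1 : 1 ≤ a := by
    have : 1 ≤ Fintype.card P := Fintype.card_pos
    rw [ha]; exact_mod_cast this
  set T : ℝ := 2 ^ (2 * m + 2) with hT
  have hT0 : 0 < T := by positivity
  set K : ℕ := B + m + 2 with hK
  set c1 : ℝ := (B + 1) * a ^ B * 2 ^ (B * B) with hc1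
  set c2 : ℝ := a * ((m + 1) * a ^ m) * (a * a) * ((B + 1) * a ^ B) with hc2
  have l1 : Tendsto (fun x : ℕ => c1 / (x : ℝ)) atTop (𝓝 0) :=
    tendsto_const_div_atTop_nhds_zero_nat c1
  have l2 := lim2 c2 T K hT0 (13 * K)
  have l3 := l1.add l2
  rw [add_zero] at l3
  obtain ⟨x, hx1, hx2, hx3⟩ := ((l3.eventually_lt_const zero_lt_one).and
    ((eventually_ge_atTop 2).and (eventually_ge_atTop n0))).exists
  have hxr : (2 : ℝ) ≤ x := by exact_mod_cast hx2
  have hx0 : (0 : ℝ) < x := by linarith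
  refine ⟨x ^ 13, hx3.trans (Nat.le_self_pow (by norm_num) x), ?_⟩
  set n := x ^ 13 with hn
  set q : ℝ := 1 / (x : ℝ) ^ 3 with hq
  have hq0 : 0 ≤ q := by positivity
  have hq2 : q ≤ 1 / 2 := by
    rw [hq]
    apply one_div_le_one_div_of_le (by norm_num)
    calc (2 : ℝ) ≤ x := hxr
      _ = (x : ℝ) ^ 1 := by ring
      _ ≤ (x : ℝ) ^ 3 := pow_le_pow_right₀ (by linarith) (by norm_num)
  have hN : (Fintype.card (P × Fin n) : ℝ) = a * (x : ℝ) ^ 13 := by
    rw [Fintype.card_prod, Fintype.card_fin, hn]; push_cast; rfl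
  have hN1 : 1 ≤ Fintype.card (P × Fin n) := by
    have : (1 : ℝ) ≤ a * (x : ℝ) ^ 13 :=
      one_le_mul_of_one_le_of_one_le ha1 (one_le_pow₀ (by linarith))
    rw [← hN] at this
    exact_mod_cast this
  let Ys : Finset (P × Fin n) → Finset (Finset ((P × Fin n) × (P × Fin n))) := fun U =>
    (U ×ˢ U).powerset.filter fun Y => (∀ e ∈ Y, e.1.1 = e.2.1) ∧ 13 * U.card < 3 * Y.card
  let f1 : ((P × Fin n) × (P × Fin n) → Bool) → ℝ := fun ω =>
    ∑ U ∈ small (P × Fin n) B, ∑ Y ∈ Ys U, cyl Y (fun _ => true) ω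
  let A := ((univ : Finset P) ×ˢ small (P × Fin n) m ×ˢ (univ : Finset ((P × Fin n) × (P × Fin n)))
    ×ˢ small (P × Fin n) B).filter fun z => (z.2.1.filter fun c => c.1 = z.1).card ≤ 2
  let W : P × Finset (P × Fin n) × ((P × Fin n) × (P × Fin n)) × Finset (P × Fin n) →
      Finset (P × Fin n) := fun z =>
    (univ.filter fun w => w.1 = z.1) \ (z.2.2.2 ∪ insert z.2.2.1.1 (insert z.2.2.1.2 z.2.1))
  let f2 : ((P × Fin n) × (P × Fin n) → Bool) → ℝ := fun ω =>
    ∑ z ∈ A, ∏ w ∈ W z, (1 - cyl (SS z.2.1 z.2.2.1.1 z.2.2.1.2 w) (sg z.2.2.1.1 z.2.2.1.2) ω)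
  have hp0 : ∀ e : (P × Fin n) × (P × Fin n), 0 ≤ pp q e := by
    intro e; unfold pp; split_ifs <;> linarith
  have hp1 : ∀ e : (P × Fin n) × (P × Fin n), pp q e ≤ 1 := by
    intro e; unfold pp; split_ifs <;> linarith
  have E1 : Ex (pp q) f1 ≤ c1 / x := by
    simp only [f1]
    rw [Ex_sum]
    have s1 : ∀ U ∈ small (P × Fin n) B,
        Ex (pp q) (fun ω => ∑ Y ∈ Ys U, cyl Y (fun _ => true) ω) ≤
          2 ^ (B * B) / (x : ℝ) ^ (13 * U.card + 1) := by
      intro U hU
      have hU' : U.card ≤ B := (mem_filter.1 hU).2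
      rw [Ex_sum]
      have s2 : ∀ Y ∈ Ys U, Ex (pp q) (cyl Y (fun _ => true)) ≤
          1 / (x : ℝ) ^ (13 * U.card + 1) := by
        intro Y hY
        obtain ⟨-, h1, h2⟩ := mem_filter.1 hY
        rw [Ex_cyl, Finset.prod_congr rfl (g := fun _ => q) (by
          intro e he
          simp [pp, h1 e he]), prod_const, hq, one_div_pow, ← pow_mul]
        apply one_div_le_one_div_of_le (by positivity)
        exact pow_le_pow_right₀ (by linarith) (by omega)
      refine (Finset.sum_le_card_nsmul _ _ _ s2).trans ?_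
      rw [nsmul_eq_mul, mul_one_div]
      apply div_le_div_of_nonneg_right _ (by positivity)
      have : (Ys U).card ≤ 2 ^ (B * B) := by
        refine (card_filter_le _ _).trans ?_
        rw [card_powerset, card_product]
        exact Nat.pow_le_pow_right (by norm_num) (Nat.mul_le_mul hU' hU')
      exact_mod_cast this
    refine (Finset.sum_le_sum s1).trans ?_
    refine (sum_small B (fun u => 2 ^ (B * B) / (x : ℝ) ^ (13 * u + 1))
      (fun u => by positivity)).trans ?_
    have s3 : ∀ u ∈ range (B + 1), (Fintype.card (P × Fin n) : ℝ) ^ u *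
        (2 ^ (B * B) / (x : ℝ) ^ (13 * u + 1)) ≤ a ^ B * 2 ^ (B * B) / x := by
      intro u hu
      have hu' : u ≤ B := by simp only [mem_range] at hu; omega
      have : (Fintype.card (P × Fin n) : ℝ) ^ u * (2 ^ (B * B) / (x : ℝ) ^ (13 * u + 1)) =
          a ^ u * 2 ^ (B * B) / x := by
        rw [hN, mul_pow, ← pow_mul, pow_succ]
        field_simp
      rw [this]
      apply div_le_div_of_nonneg_right _ hx0.le
      exact mul_le_mul_of_nonneg_right (pow_le_pow_right₀ ha1 hu') (by positivity)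
    refine (Finset.sum_le_card_nsmul _ _ _ s3).trans ?_
    rw [card_range, nsmul_eq_mul, hc1]
    push_cast
    apply le_of_eq
    ring
  have E2 : Ex (pp q) f2 ≤ c2 * (x : ℝ) ^ (13 * K) * Real.exp (-(((x : ℝ) - K) / T)) := by
    simp only [f2]
    rw [Ex_sum]
    have s1 : ∀ z ∈ A, Ex (pp q) (fun ω => ∏ w ∈ W z,
        (1 - cyl (SS z.2.1 z.2.2.1.1 z.2.2.1.2 w) (sg z.2.2.1.1 z.2.2.1.2) ω)) ≤
          Real.exp (-(((x : ℝ) - K) / T)) := by
      rintro ⟨i, C, ⟨r1, r2⟩, D⟩ hz
      simp only [A, mem_filter, mem_product, small, mem_univ, true_and] at hz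
      obtain ⟨⟨hC, hD⟩, h2⟩ := hz
      have hW : ∀ w ∈ W (i, C, (r1, r2), D), w.1 = i ∧ w ∉ insert r1 (insert r2 C) := by
        intro w hw
        simp only [W, Finset.mem_sdiff, mem_filter, mem_univ, true_and, mem_union, not_or] at hw
        exact ⟨hw.1, hw.2.2⟩
      rw [Ex_none (pp q) (fun w => SS C r1 r2 w) (fun _ => sg r1 r2) _
        (fun w hw w' hw' h => SS_disj C r1 r2 w w' (hW w hw).2 (hW w' hw').2 h)]
      set π : ℝ := q ^ 4 * (1 / 2) ^ (2 * m + 2) with hπ
      have hπ0 : 0 ≤ π := by positivity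
      have s2 : ∏ w ∈ W (i, C, (r1, r2), D),
          (1 - ∏ e ∈ SS C r1 r2 w, if sg r1 r2 e then pp q e else 1 - pp q e) ≤
          ∏ w ∈ W (i, C, (r1, r2), D), Real.exp (-π) := by
        apply Finset.prod_le_prod
        · intro w _
          have : (∏ e ∈ SS C r1 r2 w, if sg r1 r2 e then pp q e else 1 - pp q e) ≤ 1 := by
            apply Finset.prod_le_one
            · intro e _; split_ifs
              · exact hp0 e
              · linarith [hp1 e]
            · intro e _; split_ifs
              · exact hp1 e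
              · linarith [hp0 e]
          linarith
        · intro w hw
          have := SS_prob q hq0 hq2 m C hC r1 r2 w (by rw [(hW w hw).1]; exact h2)
          have := Real.add_one_le_exp (-π)
          linarith
      refine s2.trans ?_
      rw [prod_const, ← Real.exp_nat_mul]
      apply Real.exp_le_exp.2
      have s4 : n ≤ (W (i, C, (r1, r2), D)).card + K := by
        have b1 : (univ.filter fun w : P × Fin n => w.1 = i).card = n := by
          have : (univ.filter fun w : P × Fin n => w.1 = i) = ({i} : Finset P) ×ˢ univ := by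
            ext w
            simp only [mem_filter, mem_univ, true_and, mem_product, mem_singleton, and_true]
          rw [this, card_product]; simp
        have b2 := Finset.le_card_sdiff (D ∪ insert r1 (insert r2 C))
          (univ.filter fun w : P × Fin n => w.1 = i)
        have b3 := card_union_le D (insert r1 (insert r2 C))
        have b4 := card_insert_le r1 (insert r2 C)
        have b5 := card_insert_le r2 C
        simp only [W]
        omega
      have s5 : (x : ℝ) ^ 13 ≤ (W (i, C, (r1, r2), D)).card + K := by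
        have : ((x ^ 13 : ℕ) : ℝ) ≤ (((W (i, C, (r1, r2), D)).card + K : ℕ) : ℝ) := by
          exact_mod_cast s4
        push_cast at this
        exact this
      have s6 : π = 1 / ((x : ℝ) ^ 12 * T) := by
        rw [hπ, hq, hT, one_div_pow, one_div_pow, ← pow_mul, one_div_mul_one_div]
      have s7 : (1 : ℝ) ≤ (x : ℝ) ^ 12 := one_le_pow₀ (by linarith)
      rw [s6, mul_neg, neg_le_neg_iff, mul_one_div, div_le_div_iff₀ hT0 (by positivity)]
      have hK0 : (0 : ℝ) ≤ K := Nat.cast_nonneg _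
      have : ((x : ℝ) - K) * (x : ℝ) ^ 12 ≤ (W (i, C, (r1, r2), D)).card := by
        nlinarith
      nlinarith
    refine (Finset.sum_le_card_nsmul _ _ _ s1).trans ?_
    rw [nsmul_eq_mul]
    apply mul_le_mul_of_nonneg_right _ (Real.exp_pos _).le
    have b1 : A.card ≤ Fintype.card P * ((small (P × Fin n) m).card *
        (Fintype.card (P × Fin n) * Fintype.card (P × Fin n) * (small (P × Fin n) B).card)) := by
      refine (card_filter_le _ _).trans (le_of_eq ?_)
      simp only [card_product, card_univ, Fintype.card_prod]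
    have b2 := card_small (V := P × Fin n) m hN1
    have b3 := card_small (V := P × Fin n) B hN1
    have b4 : (A.card : ℝ) ≤ a * ((small (P × Fin n) m).card *
        ((Fintype.card (P × Fin n) : ℝ) * Fintype.card (P × Fin n) *
          (small (P × Fin n) B).card)) := by
      rw [ha]; exact_mod_cast b1
    rw [hN] at b2 b3 b4
    refine b4.trans ?_
    calc a * ((small (P × Fin n) m).card * (a * (x : ℝ) ^ 13 * (a * (x : ℝ) ^ 13) *
          (small (P × Fin n) B).card))
        ≤ a * ((m + 1) * (a * (x : ℝ) ^ 13) ^ m * (a * (x : ℝ) ^ 13 * (a * (x : ℝ) ^ 13) *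
          ((B + 1) * (a * (x : ℝ) ^ 13) ^ B))) := by gcongr
      _ = c2 * (x : ℝ) ^ (13 * K) := by
        rw [hc2, hK]; ring
  obtain ⟨ω, hω⟩ := exists_good hp0 hp1 (fun ω => f1 ω + f2 ω) (by
    rw [Ex_add]; linarith)
  have n1 : ∀ U, ∀ Y, 0 ≤ cyl (ι := (P × Fin n) × (P × Fin n)) Y U ω := fun U Y => cyl_nonneg _ _ _
  have n2 : ∀ z ∈ A, 0 ≤ ∏ w ∈ W z,
      (1 - cyl (SS z.2.1 z.2.2.1.1 z.2.2.1.2 w) (sg z.2.2.1.1 z.2.2.1.2) ω) := by
    intro z _
    apply Finset.prod_nonneg
    intro w _
    linarith [cyl_le (SS z.2.1 z.2.2.1.1 z.2.2.1.2 w) (sg z.2.2.1.1 z.2.2.1.2) ω]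
  have g1 : 0 ≤ f1 ω := sum_nonneg fun U _ => sum_nonneg fun Y _ => n1 _ _
  have g2 : 0 ≤ f2 ω := sum_nonneg n2
  refine ⟨ω, ?_, ?_⟩
  · intro U hU
    by_contra hc
    set Y := (U ×ˢ U).filter fun e => e.1.1 = e.2.1 ∧ ω e = true with hY
    have hYs : Y ∈ Ys U := by
      simp only [Ys, mem_filter, mem_powerset]
      exact ⟨filter_subset _ _, fun e he => (mem_filter.1 he).2.1, by omega⟩
    have k1 : cyl Y (fun _ => true) ω = 1 := by
      unfold cyl
      rw [if_pos]
      intro e he
      exact (mem_filter.1 he).2.2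
    have k2 : cyl Y (fun _ => true) ω ≤ ∑ Y ∈ Ys U, cyl Y (fun _ => true) ω :=
      Finset.single_le_sum (f := fun Y => cyl Y (fun _ => true) ω) (fun Y _ => n1 _ _) hYs
    have k3 : ∑ Y ∈ Ys U, cyl Y (fun _ => true) ω ≤ f1 ω :=
      Finset.single_le_sum (f := fun U => ∑ Y ∈ Ys U, cyl Y (fun _ => true) ω)
        (fun U _ => sum_nonneg fun Y _ => n1 _ _) (mem_filter.2 ⟨mem_univ U, hU⟩)
    linarith
  · intro i C r1 r2 D hC h2 hr1 hr2 hD
    have hz : (i, C, (r1, r2), D) ∈ A := by
      simp only [A, mem_filter, mem_product, small, mem_univ, true_and]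
      exact ⟨⟨hC, hD⟩, h2⟩
    have k1 := Finset.single_le_sum n2 hz
    have k2 : ∃ w ∈ W (i, C, (r1, r2), D), ∀ e ∈ SS C r1 r2 w, ω e = sg r1 r2 e := by
      by_contra hc
      have : ∏ w ∈ W (i, C, (r1, r2), D), (1 - cyl (SS C r1 r2 w) (sg r1 r2) ω) = 1 := by
        apply Finset.prod_eq_one
        intro w hw
        unfold cyl
        rw [if_neg (fun h => hc ⟨w, hw, h⟩), sub_zero]
      simp only at k1
      change _ ≤ f2 ω at k1
      linarith
    obtain ⟨w, hw, h⟩ := k2
    simp only [W, Finset.mem_sdiff, mem_filter, mem_univ, true_and, mem_union, not_or, mem_insert] at hw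
    obtain ⟨w1, w2, w3, w4, w5⟩ := hw
    refine ⟨w, w1, w2, w5, w3, w4, fun c hc => ⟨?_, ?_⟩, ?_, ?_⟩
    · rw [h (w, c) (mem_union_left _ (mem_image_of_mem _ (by simp [hc])))]
      simp only [sg, decide_eq_true_eq]
      exact ⟨fun e => hr1 (e ▸ hc), fun e => hr2 (e ▸ hc)⟩
    · rw [h (c, w) (mem_union_right _ (mem_image_of_mem _ hc))]
      simp only [sg, decide_eq_true_eq]
      exact ⟨w3, w4⟩
    · rw [h (w, r1) (mem_union_left _ (mem_image_of_mem _ (by simp)))]
      simp [sg]
    · rw [h (w, r2) (mem_union_left _ (mem_image_of_mem _ (by simp)))]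
      simp [sg]

end Pool.Agent.H.MP_dfa28f_co
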